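import Pool.Agent.W782.KI.Planar
import Pool.Agent.W808.KZ.T_SEPB
import Pool.Agent.W424.KI.Stm

/-!
# Annuli of the dislocated plane: separation in step B (helper782)
-/

set_option autoImplicit false

namespace Pool.Agent.W782.KI
open H974 H906.Cyl
open H12S (Dir hbE segD rimE H4 H3g Crs Nr sqE FD_nb FD_nb_of FD_mem_RE FD_of_mem_RE FD_div)
open Pool.Agent.H160R2.ML (nm)
open Pool.Agent.H160R2.MU (Cel csq EP inSq)
open Pool.Agent.H160R2.MU.TSEPB (EP_loc EP_of EP_union)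
open Pool.Agent.W801.OU
open Pool.Agent.W808.KZ (vp fp AdmZ)
open Pool.Agent.W808.KZ.TSEPB (eqv_closed eqv_isol dg_near vp_inj vp_even src_dco)
open Pool.Agent.W424.KI
open Relation (EqvGen)

namespace SB

/-! ### squares and points away from the zipper -/

/-- points away from the zipper -/
def Aw (p : ℤ × ℤ) : Prop := 1 ≤ p.2 ∨ p.1 + 2 ≤ 0 ∨ 2 ≤ p.1

/-- squares away from the zipper -/
def Sz : Set Edg := {e | 0 ≤ dco e ∨ (e.1 + e.2.1 + 1 ≠ 0 ∧ e.1 + e.2.1 ≠ 0)}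

theorem mem_Sz {e : Edg} : e ∈ Sz ↔ 0 ≤ dco e ∨ (e.1 + e.2.1 + 1 ≠ 0 ∧ e.1 + e.2.1 ≠ 0) := Iff.rfl

theorem nrm_std {d j t : ℤ} (h : 0 ≤ d ∨ j ≠ 0) : nrm {0} d j t = (j, t) := by
  unfold nrm
  rw [if_neg]
  rintro ⟨h1, h2⟩
  have h3 : j = 0 := h2
  omega

theorem aw_Sz {c : ℤ} {e : Edg} {p q : ℤ × ℤ} (hz : e ∉ zp {0})
    (h : Dg {0} c e p q ∨ Dg {0} c e q p) (hp : Aw p) : e ∈ Sz := by
  rw [mem_Sz]
  by_contra hcon
  push Not at hcon
  obtain ⟨hd, hs⟩ := hcon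
  have hz1 : e.1 + e.2.1 + 1 ≠ 0 := fun hh => hz ⟨hd, hh⟩
  have hs0 : e.1 + e.2.1 = 0 := hs hz1
  have n0 : ∀ t, nrm {0} (dco e) (e.1 + e.2.1) t = (-1, t) := by
    intro t
    unfold nrm
    rw [if_pos ⟨hd, hs0⟩, hs0]
    rfl
  have n1 : ∀ t, nrm {0} (dco e) (e.1 + e.2.1 + 1) t = (1, t) := by
    intro t
    unfold nrm
    rw [if_neg (fun hh => hz1 hh.2), hs0]
    rfl
  have key : ∀ t : ℤ, t ≤ 0 → (p = (-1, t) ∨ p = (1, t)) → False := by
    intro t ht hpt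
    unfold Aw at hp
    rcases hpt with rfl | rfl
    · dsimp only at hp; omega
    · dsimp only at hp; omega
  rcases h with h | h
  · cases h with
    | rise h => exact key (dco e) hd.le (Or.inl (n0 _))
    | fall h => exact key (dco e + 1) (by omega) (Or.inl (n0 _))
  · cases h with
    | rise h => exact key (dco e + 1) (by omega) (Or.inr (n1 _))
    | fall h => exact key (dco e) hd.le (Or.inr (n1 _))

theorem dg_std {c : ℤ} {e : Edg} (he : e ∈ Sz) {x y : ℤ × ℤ} :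
    Dg {0} c e x y ↔
      ((e.1 + e.2.1 + dco e) % 2 = c ∧ x = (e.1 + e.2.1, dco e) ∧
        y = (e.1 + e.2.1 + 1, dco e + 1)) ∨
      ((e.1 + e.2.1 + dco e) % 2 = 1 - c ∧ x = (e.1 + e.2.1, dco e + 1) ∧
        y = (e.1 + e.2.1 + 1, dco e)) := by
  have n0 : ∀ t, nrm {0} (dco e) (e.1 + e.2.1) t = (e.1 + e.2.1, t) := fun t =>
    nrm_std ((mem_Sz.1 he).imp_right fun h => h.2)
  have n1 : ∀ t, nrm {0} (dco e) (e.1 + e.2.1 + 1) t = (e.1 + e.2.1 + 1, t) := fun t =>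
    nrm_std ((mem_Sz.1 he).imp_right fun h => h.1)
  constructor
  · intro h
    cases h with
    | rise h => exact Or.inl ⟨h, n0 _, n1 _⟩
    | fall h => exact Or.inr ⟨h, n0 _, n1 _⟩
  · rintro (⟨h, rfl, rfl⟩ | ⟨h, rfl, rfl⟩)
    · have := Dg.rise (Z := {0}) (c := c) (e := e) h
      rwa [n0, n1] at this
    · have := Dg.fall (Z := {0}) (c := c) (e := e) h
      rwa [n0, n1] at this

theorem dg0 {e : Edg} (he : e ∈ Sz) {x y : ℤ × ℤ} :
    Dg {0} 0 e x y ↔ x = vp (src e) ∧ y = vp (tgt e) := by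
  rw [dg_std he]
  obtain ⟨a, b, β⟩ := e
  cases β
  · simp only [dco, src, tgt, vp, Bool.false_eq_true, if_false, Prod.ext_iff]
    constructor
    · rintro (⟨h, -, -⟩ | ⟨h, h1, h2⟩)
      · exfalso; omega
      · omega
    · rintro ⟨h1, h2⟩
      right
      omega
  · simp only [dco, src, tgt, vp, if_true, Prod.ext_iff]
    constructor
    · rintro (⟨h, h1, h2⟩ | ⟨h, -, -⟩)
      · omega
      · exfalso; omega
    · rintro ⟨h1, h2⟩
      left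
      omega

theorem dg1 {e : Edg} (he : e ∈ Sz) {x y : ℤ × ℤ} (h : Dg {0} 1 e x y) :
    (x.1 + x.2) % 2 = 1 ∧ (y.1 + y.2) % 2 = 1 := by
  rw [dg_std he] at h
  rcases h with ⟨h, rfl, rfl⟩ | ⟨h, rfl, rfl⟩
  · dsimp only; omega
  · dsimp only; omega

/-- the links at a vertex away from the zipper -/
theorem link_vp {e : Edg} {v : Vtx} {y : ℤ × ℤ} {G : Set Edg} (hz : e ∉ zp {0})
    (hv : Aw (vp v)) :
    ((e ∈ G ∧ Dg {0} 0 e (vp v) y) ∨ (e ∉ G ∧ Dg {0} 1 e (vp v) y) →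
      e ∈ Sz ∧ e ∈ G ∧ src e = v ∧ y = vp (tgt e)) ∧
    ((e ∈ G ∧ Dg {0} 0 e y (vp v)) ∨ (e ∉ G ∧ Dg {0} 1 e y (vp v)) →
      e ∈ Sz ∧ e ∈ G ∧ tgt e = v ∧ y = vp (src e)) := by
  constructor
  · rintro (⟨h1, h2⟩ | ⟨h1, h2⟩)
    · have hS := aw_Sz hz (Or.inl h2) hv
      obtain ⟨h3, h4⟩ := (dg0 hS).1 h2
      exact ⟨hS, h1, (vp_inj h3).symm, h4⟩
    · have hS := aw_Sz hz (Or.inl h2) hv
      have := (dg1 hS h2).1
      have h5 := vp_even v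
      omega
  · rintro (⟨h1, h2⟩ | ⟨h1, h2⟩)
    · have hS := aw_Sz hz (Or.inr h2) hv
      obtain ⟨h3, h4⟩ := (dg0 hS).1 h2
      exact ⟨hS, h1, (vp_inj h4).symm, h3⟩
    · have hS := aw_Sz hz (Or.inr h2) hv
      have := (dg1 hS h2).2
      have h5 := vp_even v
      omega

/-- an edge with an endpoint away from the zipper -/
theorem sz_of_aw {e : Edg} (h : Aw (vp (src e)) ∨ Aw (vp (tgt e))) : e ∈ Sz := by
  rw [mem_Sz]
  obtain ⟨x, y, β⟩ := e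
  cases β
  · simp only [dco, src, tgt, vp, Bool.false_eq_true, if_false, Aw] at h ⊢
    omega
  · simp only [dco, src, tgt, vp, if_true, Aw] at h ⊢
    omega

theorem sz_not_zp {e : Edg} (h : e ∈ Sz) : e ∉ zp {0} := by
  rintro ⟨h1, h2⟩
  have h3 : e.1 + e.2.1 + 1 = 0 := h2
  rcases mem_Sz.1 h with h4 | h4
  · omega
  · exact h4.1 h3

/-- a planar path is a connection -/
theorem CC_reach {G : Set Edg} {R : ℤ} (hG : G ⊆ bxz R) {v w : Vtx} (h : Reach (G ∩ Sz) v w) :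
    RZ {0} (bxz R) G (vp v) (vp w) := by
  induction h with
  | refl => exact EqvGen.refl _
  | tail _ hbc ih =>
    obtain ⟨e, he, hec⟩ := hbc
    have h1 : RZ {0} (bxz R) G (vp (src e)) (vp (tgt e)) :=
      EqvGen.rel _ _ ⟨e, hG he.1, sz_not_zp he.2, Or.inl ⟨he.1, (dg0 he.2).2 ⟨rfl, rfl⟩⟩⟩
    refine ih.trans _ _ _ ?_
    rcases hec with ⟨h3, h4⟩ | ⟨h3, h4⟩
    · rw [← h3, ← h4]
      exact h1
    · rw [← h3, ← h4]
      exact h1.symm _ _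

/-- leaving a region away from the zipper -/
theorem exit_CC {B G : Set Edg} {x : ℤ × ℤ} {p : Vtx} (hxp : RZ {0} B G x (vp p))
    (R : Vtx → Prop) (hRp : R p) (hA : ∀ v, R v → Aw (vp v)) (hS : ∀ v, R v → vp v ≠ x) :
    ∃ v w, Reach ((G ∩ Sz) ∩ {e | R (src e) ∧ R (tgt e)}) p v ∧ R v ∧ ¬ R w ∧
      ∃ e ∈ G ∩ Sz, (src e = v ∧ tgt e = w) ∨ (src e = w ∧ tgt e = v) := by
  by_contra hcon
  push Not at hcon
  have step : ∀ (v w : Vtx) (e : Edg), Reach ((G ∩ Sz) ∩ {e | R (src e) ∧ R (tgt e)}) p v →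
      R v → e ∈ G ∩ Sz → ((src e = v ∧ tgt e = w) ∨ (src e = w ∧ tgt e = v)) →
      Reach ((G ∩ Sz) ∩ {e | R (src e) ∧ R (tgt e)}) p w ∧ R w := by
    intro v w e h1 h2 he hvw
    by_cases hw : R w
    · refine ⟨h1.trans (Adj.reach ⟨e, ⟨he, ?_⟩, hvw⟩), hw⟩
      rcases hvw with ⟨h3, h4⟩ | ⟨h3, h4⟩
      · exact ⟨by rw [h3]; exact h2, by rw [h4]; exact hw⟩
      · exact ⟨by rw [h3]; exact hw, by rw [h4]; exact h2⟩
    · exfalso
      have h5 := hcon v w h1 h2 hw e he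
      rcases hvw with hvw | hvw
      · exact h5.1 hvw.1 hvw.2
      · exact h5.2 hvw.1 hvw.2
  have key : ∀ a b, LZ {0} B G a b →
      ((∃ v, vp v = a ∧ Reach ((G ∩ Sz) ∩ {e | R (src e) ∧ R (tgt e)}) p v ∧ R v) ↔
       (∃ v, vp v = b ∧ Reach ((G ∩ Sz) ∩ {e | R (src e) ∧ R (tgt e)}) p v ∧ R v)) := by
    intro a b hab
    constructor
    · rintro ⟨v, rfl, h1, h2⟩
      obtain ⟨e, he, hz, hd⟩ := hab
      obtain ⟨k1, k2, k3, k4⟩ := (link_vp hz (hA v h2)).1 hd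
      exact ⟨tgt e, k4.symm, step v (tgt e) e h1 h2 ⟨k2, k1⟩ (Or.inl ⟨k3, rfl⟩)⟩
    · rintro ⟨v, rfl, h1, h2⟩
      obtain ⟨e, he, hz, hd⟩ := hab
      obtain ⟨k1, k2, k3, k4⟩ := (link_vp hz (hA v h2)).2 hd
      exact ⟨src e, k4.symm, step v (src e) e h1 h2 ⟨k2, k1⟩ (Or.inr ⟨rfl, k3⟩)⟩
  obtain ⟨v, hv, -, hv2⟩ := (eqv_closed key hxp).2 ⟨p, rfl, Reach.refl _ _, hRp⟩
  exact hS v hv2 hv

/-- leaving a region along a path -/
theorem exit_reach {C D : Set Edg} {R : Vtx → Prop} {v w : Vtx} (h : Reach D v w)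
    (hD : ∀ e ∈ D, (R (src e) ∨ R (tgt e)) → e ∈ C) (hv : R v) (hw : ¬ R w) :
    ∃ a b, Reach (C ∩ {e | R (src e) ∧ R (tgt e)}) v a ∧ R a ∧ ¬ R b ∧
      ∃ e ∈ C, (src e = a ∧ tgt e = b) ∨ (src e = b ∧ tgt e = a) := by
  by_contra hcon
  push Not at hcon
  have key : ∀ x, Reach D v x → Reach (C ∩ {e | R (src e) ∧ R (tgt e)}) v x ∧ R x := by
    intro x hx
    induction hx with
    | refl => exact ⟨Reach.refl _ _, hv⟩
    | @tail b c _ hbc ih =>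
      obtain ⟨e, he, hec⟩ := hbc
      obtain ⟨h1, h2⟩ := ih
      have heC : e ∈ C := hD e he (by
        rcases hec with ⟨h3, -⟩ | ⟨-, h3⟩
        · exact Or.inl (by rw [h3]; exact h2)
        · exact Or.inr (by rw [h3]; exact h2))
      by_cases hc : R c
      · refine ⟨h1.trans (Adj.reach ⟨e, ⟨heC, ?_⟩, hec⟩), hc⟩
        rcases hec with ⟨h3, h4⟩ | ⟨h3, h4⟩
        · exact ⟨by rw [h3]; exact h2, by rw [h4]; exact hc⟩
        · exact ⟨by rw [h3]; exact hc, by rw [h4]; exact h2⟩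
      · exfalso
        have h5 := hcon b c h1 h2 hc e heC
        rcases hec with hvw | hvw
        · exact h5.1 hvw.1 hvw.2
        · exact h5.2 hvw.1 hvw.2
  exact hw (key w h).2

/-! ### coordinates -/

theorem mle {r : ℕ} {a b : ℤ} (h : a ≤ b) : (r : ℤ) * a ≤ r * b :=
  mul_le_mul_of_nonneg_left h (by positivity)

theorem mlt {r : ℕ} {a b : ℤ} (h : (r : ℤ) * a < r * b) : a < b :=
  lt_of_mul_lt_mul_left h (by positivity)

/-- the vertices of squares which are not in the inner box and the outer region -/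
theorem clo_loc {N L r : ℕ} (hr : 1 ≤ r) {g : Edg} (hg : g ∉ EB N L r) {v : Vtx}
    (hv : src g = v ∨ tgt g = v) :
    (|v.1| ≤ (L : ℤ) * r ∧ |v.2| ≤ (L : ℤ) * r) ∧
      ((N : ℤ) * r ≤ |v.1| ∨ (N : ℤ) * r ≤ |v.2|) := by
  obtain ⟨x, y, b⟩ := g
  have hx := (FD_div hr (x := x) (k := x / (r : ℤ))).1 rfl
  have hy := (FD_div hr (x := y) (k := y / (r : ℤ))).1 rfl
  obtain ⟨X, hX⟩ : ∃ X : ℤ, X = x / (r : ℤ) := ⟨_, rfl⟩
  obtain ⟨Y, hY⟩ : ∃ Y : ℤ, Y = y / (r : ℤ) := ⟨_, rfl⟩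
  rw [← hX] at hx
  rw [← hY] at hy
  have hsq : inSq r (X, Y) (src (x, y, b)) ∧ inSq r (X, Y) (tgt (x, y, b)) := by
    unfold inSq
    cases b <;> simp only [src_mk, tgt_false, tgt_true] <;> omega
  have hvs : inSq r (X, Y) v := by
    rcases hv with rfl | rfl
    · exact hsq.1
    · exact hsq.2
  have hnot : (X, Y) ∉ BxI N L := fun h => hg (EP_of h hsq.1 hsq.2)
  have hnot' : ¬ ((-(N : ℤ) ≤ X ∧ X < N ∧ -(N : ℤ) ≤ Y ∧ Y < N) ∨
      ¬ (-(L : ℤ) ≤ X ∧ X < L ∧ -(L : ℤ) ≤ Y ∧ Y < L)) := hnot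
  push Not at hnot'
  obtain ⟨h1, h2, h3, h4, h5⟩ := hnot'
  unfold inSq at hvs
  dsimp only at hvs
  obtain ⟨A, hA⟩ : ∃ A : ℤ, A = r * X := ⟨_, rfl⟩
  obtain ⟨B, hB⟩ : ∃ B : ℤ, B = r * Y := ⟨_, rfl⟩
  obtain ⟨Lr, hLr⟩ : ∃ Lr : ℤ, Lr = (L : ℤ) * r := ⟨_, rfl⟩
  obtain ⟨Nr, hNr⟩ : ∃ Nr : ℤ, Nr = (N : ℤ) * r := ⟨_, rfl⟩
  rw [← hA, ← hB] at hvs
  have q1 := mle (r := r) h2
  have q2 := mle (r := r) (show X + 1 ≤ L by omega)
  have q3 := mle (r := r) h4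
  have q4 := mle (r := r) (show Y + 1 ≤ L by omega)
  have e1 : (r : ℤ) * (-(L : ℤ)) = -Lr := by rw [hLr]; ring
  have e2 : (r : ℤ) * (X + 1) = A + r := by rw [hA]; ring
  have e3 : (r : ℤ) * (Y + 1) = B + r := by rw [hB]; ring
  have e4 : (r : ℤ) * (L : ℤ) = Lr := by rw [hLr]; ring
  have e5 : (r : ℤ) * (N : ℤ) = Nr := by rw [hNr]; ring
  have e6 : (r : ℤ) * (-(N : ℤ)) = -Nr := by rw [hNr]; ring
  rw [e1, ← hA] at q1
  rw [e2, e4] at q2
  rw [e1, ← hB] at q3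
  rw [e3, e4] at q4
  rw [← hLr, ← hNr]
  refine ⟨⟨?_, ?_⟩, ?_⟩
  · rw [abs_le]; omega
  · rw [abs_le]; omega
  · simp only [le_abs]
    by_cases c1 : X < -(N : ℤ)
    · have := mle (r := r) (show X + 1 ≤ -(N : ℤ) by omega)
      rw [e2, e6] at this
      left; right; omega
    by_cases c2 : (N : ℤ) ≤ X
    · have := mle (r := r) c2
      rw [e5, ← hA] at this
      left; left; omega
    by_cases c3 : Y < -(N : ℤ)
    · have := mle (r := r) (show Y + 1 ≤ -(N : ℤ) by omega)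
      rw [e3, e6] at this
      right; right; omega
    have c4 : (N : ℤ) ≤ Y := h1 (by omega) (by omega) (by omega)
    have := mle (r := r) c4
    rw [e5, ← hB] at this
    right; left; omega

/-- the centre of a half ball -/
theorem coord {N L r ρ l : ℕ} (hl : 1 ≤ l) (h1 : 32 * l ≤ ρ) {x x0 z : ℤ}
    (a1 : (r : ℤ) * z + 2 * ρ < x) (a2 : x < (r : ℤ) * z + r - 2 * ρ) (a3 : x0 ≤ x)
    (a4 : x < x0 + l) (hL : |x| ≤ (L : ℤ) * r) :
    |x0| ≤ (L : ℤ) * r + 1 ∧ ((N : ℤ) * r ≤ |x| → (N : ℤ) * r - 1 ≤ |x0|) := by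
  obtain ⟨A, hA⟩ : ∃ A : ℤ, A = r * z := ⟨_, rfl⟩
  obtain ⟨Lr, hLr⟩ : ∃ Lr : ℤ, Lr = (L : ℤ) * r := ⟨_, rfl⟩
  obtain ⟨Nr, hNr⟩ : ∃ Nr : ℤ, Nr = (N : ℤ) * r := ⟨_, rfl⟩
  have e1 : (r : ℤ) * (-(L : ℤ)) = -Lr := by rw [hLr]; ring
  have e2 : (r : ℤ) * (z + 1) = A + r := by rw [hA]; ring
  have e5 : (r : ℤ) * (N : ℤ) = Nr := by rw [hNr]; ring
  rw [← hA] at a1 a2
  rw [← hLr] at hL ⊢
  rw [← hNr]
  rw [abs_le] at hL
  constructor
  · have k1 : -(L : ℤ) < z + 1 := by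
      apply mlt (r := r)
      rw [e1, e2]
      omega
    have k2 := mle (r := r) (show -(L : ℤ) ≤ z by omega)
    rw [e1, ← hA] at k2
    rw [abs_le]
    omega
  · intro h
    rw [le_abs] at h ⊢
    rcases h with h | h
    · have k1 : (N : ℤ) < z + 1 := by
        apply mlt (r := r)
        rw [e5, e2]
        omega
      have k2 := mle (r := r) (show (N : ℤ) ≤ z by omega)
      rw [e5, ← hA] at k2
      left
      omega
    · right
      omega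

/-- coarse vertices -/
theorem ccrd {N L r ρ : ℕ} (hr : 1 ≤ r) (h2 : 64 * ρ ≤ r) {x ζ : ℤ} (a1 : |x - r * ζ| ≤ 3 * ρ)
    (hL : |x| ≤ (L : ℤ) * r) :
    |ζ| ≤ (L : ℤ) ∧ ((N : ℤ) * r ≤ |x| → (N : ℤ) ≤ |ζ|) := by
  obtain ⟨A, hA⟩ : ∃ A : ℤ, A = r * ζ := ⟨_, rfl⟩
  obtain ⟨Lr, hLr⟩ : ∃ Lr : ℤ, Lr = (L : ℤ) * r := ⟨_, rfl⟩
  obtain ⟨Nr, hNr⟩ : ∃ Nr : ℤ, Nr = (N : ℤ) * r := ⟨_, rfl⟩
  have e1 : (r : ℤ) * (-(L : ℤ) - 1) = -Lr - r := by rw [hLr]; ring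
  have e2 : (r : ℤ) * ((L : ℤ) + 1) = Lr + r := by rw [hLr]; ring
  have e3 : (r : ℤ) * ((N : ℤ) - 1) = Nr - r := by rw [hNr]; ring
  have e4 : (r : ℤ) * (-(N : ℤ) + 1) = -Nr + r := by rw [hNr]; ring
  rw [← hA] at a1
  rw [← hLr] at hL
  rw [← hNr]
  rw [abs_le] at hL a1
  constructor
  · have k1 : -(L : ℤ) - 1 < ζ := by
      apply mlt (r := r)
      rw [e1, ← hA]
      omega
    have k2 : ζ < (L : ℤ) + 1 := by
      apply mlt (r := r)
      rw [e2, ← hA]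
      omega
    rw [abs_le]
    omega
  · intro h
    rw [le_abs] at h ⊢
    rcases h with h | h
    · have k1 : (N : ℤ) - 1 < ζ := by
        apply mlt (r := r)
        rw [e3, ← hA]
        omega
      left
      omega
    · have k1 : ζ < -(N : ℤ) + 1 := by
        apply mlt (r := r)
        rw [e4, ← hA]
        omega
      right
      omega

section
variable {c N L r ρ l R : ℕ} {Ci Co : Cel} {F : Finset Edg} {u v : Vtx}

theorem mem_FB {e : Edg} : e ∈ FB N L r Ci Co R F ↔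
    e ∈ boxE R ∧ (e ∈ EB N L r ∨ e ∈ ET N L r Ci Co) ∧ e ∈ F := by
  simp only [FB, Finset.mem_filter]

theorem FB_bxz : (↑(FB N L r Ci Co R F) : Set Edg) ⊆ bxz R := by
  intro e he
  have h1 := (mem_FB.1 (Finset.mem_coe.1 he)).1
  unfold boxE at h1
  obtain ⟨h2, h3⟩ := FD_of_mem_RE h1
  unfold inR at h2 h3
  show nm (src e) ≤ R ∧ nm (tgt e) ≤ R
  unfold nm
  rw [max_le_iff, max_le_iff, abs_le, abs_le, abs_le, abs_le]
  omega

/-- parameters -/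
structure Par (c N L r ρ l : ℕ) (Ci Co : Cel) (R : ℕ) (F : Finset Edg) (u v : Vtx) : Prop where
  hc : c < 3
  g : Geo N L r Ci Co R
  hl : 1 ≤ l
  h1 : 32 * l ≤ ρ
  h2 : 64 * ρ ≤ r
  hF : F ⊆ boxE R
  zip : ∀ z ∈ TubI N L Ci Co, ((N : ℤ) ≤ z.1 - z.2 ∨ z.1 + z.2 ≤ -6 ∨ 5 ≤ z.1 + z.2)
  hX : ∀ x : ℤ × ℤ, XE N L r Ci Co x →
    ¬ RZ {0} (bxz R) (↑(FB N L r Ci Co R F) : Set Edg) (scz 0 0 c) x
  hfrb : (16 * ρ : ℤ) < |u.1 + u.2| ∨
    ((16 * ρ : ℤ) < |u.1 - u.2 + 2 * N * r| ∧ (16 * ρ : ℤ) < |u.1 - u.2 + 2 * L * r|)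
  hu : RZ {0} (bxz R) (↑(FB N L r Ci Co R F) : Set Edg) (scz 0 0 c) (vp u)
  du : DvB N L r Ci Co u
  dv : DvB N L r Ci Co v
  kv : KL N L r ρ Ci Co F v
  nuv : Nr (4 * l) u v

theorem Par.Nr16 (h : Par c N L r ρ l Ci Co R F u v) : (16 : ℤ) * r ≤ N * r ∧
    3 * ((N : ℤ) * r) ≤ L * r := by
  have e1 : (16 : ℤ) ≤ N := by exact_mod_cast h.g.hN
  have e3 : (3 : ℤ) * N ≤ L := by exact_mod_cast h.g.hL
  have e2 : (0 : ℤ) ≤ r := by positivity
  refine ⟨mul_le_mul_of_nonneg_right e1 e2, ?_⟩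
  have := mul_le_mul_of_nonneg_right e3 e2
  linarith

theorem Par.r64 (h : Par c N L r ρ l Ci Co R F u v) :
    (32 : ℤ) * l ≤ ρ ∧ (64 : ℤ) * ρ ≤ r ∧ (1 : ℤ) ≤ l := by
  have := h.h1
  have := h.h2
  have := h.hl
  omega

theorem Par.hr1 (h : Par c N L r ρ l Ci Co R F u v) : 1 ≤ r := by
  have := h.g.hr
  omega

/-- location of the vertices of the closed region -/
theorem Par.loc (h : Par c N L r ρ l Ci Co R F u v) {w : Vtx} (hw : DvB N L r Ci Co w) :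
    (|w.1| ≤ (L : ℤ) * r ∧ |w.2| ≤ (L : ℤ) * r) ∧
      ((N : ℤ) * r ≤ |w.1| ∨ (N : ℤ) * r ≤ |w.2|) := by
  obtain ⟨e, he, hew⟩ := hw
  exact clo_loc h.hr1 he.1 hew

/-- the sectors are far from `u` -/
theorem Par.sec (h : Par c N L r ρ l Ci Co R F u v) {w : Vtx} (h1 : |w.1 - u.1| ≤ r)
    (h2 : |w.2 - u.2| ≤ r) : vp w ≠ scz 0 0 c := by
  intro hh
  have h3 := (h.loc h.du).2
  have h4 := h.Nr16.1
  have h5 := h.g.hr
  have h6 := h.hc
  unfold vp scz at hh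
  rw [Prod.mk.injEq] at hh
  obtain ⟨k1, k2⟩ := hh
  simp only [le_abs] at h3
  rw [abs_le] at h1 h2
  push_cast at k1
  omega

/-- `u` is in a square of the boxes or of the tube -/
theorem Par.link (h : Par c N L r ρ l Ci Co R F u v) : ∃ z ∈ BxI N L ∪ TubI N L Ci Co,
    (r * z.1 - 1 ≤ u.1 ∧ u.1 ≤ r * z.1 + r + 1) ∧ (r * z.2 - 1 ≤ u.2 ∧ u.2 ≤ r * z.2 + r + 1) := by
  have key : ∃ e : Edg, (e ∈ EB N L r ∨ e ∈ ET N L r Ci Co) ∧ ∃ (c' : ℤ) (y : ℤ × ℤ),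
      Dg {0} c' e (vp u) y ∨ Dg {0} c' e y (vp u) := by
    by_contra hcon
    push Not at hcon
    have hiso : scz 0 0 c = vp u := by
      refine eqv_isol (fun z => ⟨?_, ?_⟩) h.hu
      · rintro ⟨e, he, hz, hd⟩
        by_cases hin : e ∈ EB N L r ∨ e ∈ ET N L r Ci Co
        · rcases hd with hd | hd
          · exact (hcon e hin 0 z).1 hd.2
          · exact (hcon e hin 1 z).1 hd.2
        · push Not at hin
          rcases hd with hd | hd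
          · have := (mem_FB.1 (Finset.mem_coe.1 hd.1)).2.1
            rcases this with h3 | h3
            · exact hin.1 h3
            · exact hin.2 h3
          · exact h.hX (vp u) ⟨e, hin, hz, z, Or.inl hd.2⟩ h.hu
      · rintro ⟨e, he, hz, hd⟩
        by_cases hin : e ∈ EB N L r ∨ e ∈ ET N L r Ci Co
        · rcases hd with hd | hd
          · exact (hcon e hin 0 z).2 hd.2
          · exact (hcon e hin 1 z).2 hd.2
        · push Not at hin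
          rcases hd with hd | hd
          · have := (mem_FB.1 (Finset.mem_coe.1 hd.1)).2.1
            rcases this with h3 | h3
            · exact hin.1 h3
            · exact hin.2 h3
          · exact h.hX (vp u) ⟨e, hin, hz, z, Or.inr hd.2⟩ h.hu
    exact h.sec (w := u) (by simp) (by simp) hiso.symm
  obtain ⟨e, he, c', y, hd⟩ := key
  have he' : e ∈ EP r (BxI N L ∪ TubI N L Ci Co) := by
    rw [EP_union]
    exact he
  obtain ⟨z, hz, h1, h2⟩ := EP_loc he' (Or.inl ⟨rfl, rfl⟩)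
  refine ⟨z, hz, ?_⟩
  have hnear : ((vp u).2 = dco e ∨ (vp u).2 = dco e + 1) ∧ e.1 + e.2.1 - 1 ≤ (vp u).1 ∧
      (vp u).1 ≤ e.1 + e.2.1 + 1 := by
    rcases hd with hd | hd
    · exact ⟨(dg_near hd).1.1, (dg_near hd).2.1⟩
    · exact ⟨(dg_near hd).1.2, (dg_near hd).2.2⟩
  have h3 := src_dco e
  have k1 : (vp u).1 = u.1 + u.2 := rfl
  have k2 : (vp u).2 = u.1 - u.2 := rfl
  rw [k1, k2] at hnear
  unfold inSq at h1
  omega

/-- `u` is far from the zipper -/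
theorem Par.far (h : Par c N L r ρ l Ci Co R F u v) :
    (7 * ρ : ℤ) ≤ u.1 - u.2 ∨ (7 * ρ : ℤ) ≤ |u.1 + u.2| := by
  by_contra hfar
  push Not at hfar
  obtain ⟨hf1, hf2⟩ := hfar
  obtain ⟨z, hz, hz1, hz2⟩ := h.link
  obtain ⟨hN1, hN2⟩ := h.Nr16
  obtain ⟨hl1, hl2, hl3⟩ := h.r64
  obtain ⟨⟨b1, b2⟩, b3⟩ := h.loc h.du
  have hfr := h.hfrb
  obtain ⟨A, hA⟩ : ∃ A : ℤ, A = r * z.1 := ⟨_, rfl⟩
  obtain ⟨B, hB⟩ : ∃ B : ℤ, B = r * z.2 := ⟨_, rfl⟩
  obtain ⟨Lr, hLr⟩ : ∃ Lr : ℤ, Lr = (L : ℤ) * r := ⟨_, rfl⟩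
  obtain ⟨Nr, hNr⟩ : ∃ Nr : ℤ, Nr = (N : ℤ) * r := ⟨_, rfl⟩
  have e1 : (2 * N * r : ℤ) = 2 * Nr := by rw [hNr]; ring
  have e2 : (2 * L * r : ℤ) = 2 * Lr := by rw [hLr]; ring
  rw [e1, e2] at hfr
  rw [← hA] at hz1
  rw [← hB] at hz2
  rw [← hLr, ← hNr] at hN2
  rw [← hNr] at hN1 b3
  rw [← hLr] at b1 b2
  rw [abs_lt] at hf2
  rw [abs_le] at b1 b2
  simp only [le_abs] at b3
  simp only [lt_abs] at hfr
  have eL : (r : ℤ) * (L : ℤ) = Lr := by rw [hLr]; ring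
  have eL' : (r : ℤ) * (-(L : ℤ)) = -Lr := by rw [hLr]; ring
  have eN : (r : ℤ) * (N : ℤ) = Nr := by rw [hNr]; ring
  have eN' : (r : ℤ) * (-(N : ℤ)) = -Nr := by rw [hNr]; ring
  have e3 : (r : ℤ) * (z.1 + 1) = A + r := by rw [hA]; ring
  have e4 : (r : ℤ) * (z.2 + 1) = B + r := by rw [hB]; ring
  rcases hz with hz | hz
  · have hz' : (-(N : ℤ) ≤ z.1 ∧ z.1 < N ∧ -(N : ℤ) ≤ z.2 ∧ z.2 < N) ∨
        ¬ (-(L : ℤ) ≤ z.1 ∧ z.1 < L ∧ -(L : ℤ) ≤ z.2 ∧ z.2 < L) := hz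
    rcases hz' with ⟨c1, c2, c3, c4⟩ | hz'
    · have k1 := mle (r := r) c1
      have k2 := mle (r := r) (show z.1 + 1 ≤ N by omega)
      have k3 := mle (r := r) c3
      have k4 := mle (r := r) (show z.2 + 1 ≤ N by omega)
      rw [eN', ← hA] at k1
      rw [e3, eN] at k2
      rw [eN', ← hB] at k3
      rw [e4, eN] at k4
      omega
    · by_cases c1 : z.1 < -(L : ℤ)
      · have := mle (r := r) (show z.1 + 1 ≤ -(L : ℤ) by omega)
        rw [e3, eL'] at this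
        omega
      by_cases c2 : (L : ℤ) ≤ z.1
      · have := mle (r := r) c2
        rw [eL, ← hA] at this
        omega
      by_cases c3 : z.2 < -(L : ℤ)
      · have := mle (r := r) (show z.2 + 1 ≤ -(L : ℤ) by omega)
        rw [e4, eL'] at this
        omega
      by_cases c4 : (L : ℤ) ≤ z.2
      · have := mle (r := r) c4
        rw [eL, ← hB] at this
        omega
      omega
  · have h1 := h.zip z hz
    rcases h1 with h1 | h1 | h1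
    · have := mle (r := r) h1
      have e5 : (r : ℤ) * (z.1 - z.2) = A - B := by rw [hA, hB]; ring
      rw [e5, eN] at this
      omega
    · have := mle (r := r) h1
      have e5 : (r : ℤ) * (z.1 + z.2) = A + B := by rw [hA, hB]; ring
      rw [e5] at this
      omega
    · have := mle (r := r) h1
      have e5 : (r : ℤ) * (z.1 + z.2) = A + B := by rw [hA, hB]; ring
      rw [e5] at this
      omega

/-- near `u` everything is away from the zipper -/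
theorem Par.aw (h : Par c N L r ρ l Ci Co R F u v) {w : Vtx} (h1 : |w.1 - u.1| ≤ ρ + l)
    (h2 : |w.2 - u.2| ≤ ρ + l) : Aw (vp w) := by
  obtain ⟨hl1, hl2, hl3⟩ := h.r64
  have hf := h.far
  rw [abs_le] at h1 h2
  simp only [le_abs] at hf
  unfold Aw vp
  dsimp only
  omega

/-- the planar configuration -/
def CC (N L r : ℕ) (Ci Co : Cel) (R : ℕ) (F : Finset Edg) : Set Edg :=
  (↑(FB N L r Ci Co R F) : Set Edg) ∩ Sz

/-- `v` is connected to the distance -/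
theorem Par.exv (h : Par c N L r ρ l Ci Co R F u v) (Q : Vtx → Prop) (hQ : Q v)
    (hQ2 : ∀ w, Q w → (|w.1 - u.1| ≤ ρ + l ∧ |w.2 - u.2| ≤ ρ + l) ∧ Aw (vp w)) :
    ∃ a b, Reach (CC N L r Ci Co R F ∩ {e | Q (src e) ∧ Q (tgt e)}) v a ∧ Q a ∧ ¬ Q b ∧
      ∃ e ∈ CC N L r Ci Co R F, (src e = a ∧ tgt e = b) ∨ (src e = b ∧ tgt e = a) := by
  obtain ⟨w, e, he, heY, hew, hwv⟩ := h.kv
  obtain ⟨hl1, hl2, hl3⟩ := h.r64
  refine exit_reach (w := w) hwv.symm ?_ hQ ?_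
  · rintro g ⟨hg1, hg2⟩ hg3
    refine ⟨Finset.mem_coe.2 (mem_FB.2 ⟨h.hF (Finset.mem_coe.1 hg1), hg2.1,
      Finset.mem_coe.1 hg1⟩), ?_⟩
    apply sz_of_aw
    rcases hg3 with hg3 | hg3
    · exact Or.inl (hQ2 _ hg3).2
    · exact Or.inr (hQ2 _ hg3).2
  · intro hw
    obtain ⟨⟨k1, k2⟩, -⟩ := hQ2 w hw
    rw [abs_le] at k1 k2
    have hsrc : e.1 = (src e).1 ∧ e.2.1 = (src e).2 := ⟨rfl, rfl⟩
    have hwe : |e.1 - w.1| ≤ 1 ∧ |e.2.1 - w.2| ≤ 1 := by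
      rcases hew with rfl | rfl
      · simp [src]
      · obtain ⟨x, y, β⟩ := e
        cases β <;> simp [tgt]
    obtain ⟨e0, he0, heu⟩ := h.du
    have hue : |e0.1 - u.1| ≤ 1 ∧ |e0.2.1 - u.2| ≤ 1 := by
      rcases heu with rfl | rfl
      · simp [src]
      · obtain ⟨x, y, β⟩ := e0
        cases β <;> simp [tgt]
    simp only [abs_le] at hwe hue
    apply heY
    refine ⟨he, ⟨e0, he0, ?_, ?_⟩, ?_⟩
    · rw [abs_le]; omega
    · rw [abs_le]; omega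
    · have hfr := h.hfrb
      obtain ⟨Lr, hLr⟩ : ∃ Lr : ℤ, Lr = (L : ℤ) * r := ⟨_, rfl⟩
      obtain ⟨Nr, hNr⟩ : ∃ Nr : ℤ, Nr = (N : ℤ) * r := ⟨_, rfl⟩
      have e1 : (2 * N * r : ℤ) = 2 * Nr := by rw [hNr]; ring
      have e2 : (2 * L * r : ℤ) = 2 * Lr := by rw [hLr]; ring
      rw [e1, e2] at hfr
      simp only [lt_abs] at hfr
      rintro (⟨x1, x2⟩ | ⟨x1, x2⟩)
      · rw [← hNr, abs_le] at x1 x2
        omega
      · rw [← hLr, abs_le] at x1 x2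
        omega

/-- `v` touches a square of the boxes or of the tube -/
theorem Par.tv (h : Par c N L r ρ l Ci Co R F u v) :
    ∃ g ∈ EP r (BxI N L ∪ TubI N L Ci Co), (src g = v ∨ tgt g = v) := by
  obtain ⟨w, e, he, -, hew, hwv⟩ := h.kv
  rcases Relation.ReflTransGen.cases_tail hwv with rfl | ⟨b, -, g, hg, hgv⟩
  · exact ⟨e, by rw [EP_union]; exact he, hew⟩
  · refine ⟨g, by rw [EP_union]; exact hg.2.1, ?_⟩
    rcases hgv with ⟨-, k⟩ | ⟨k, -⟩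
    · exact Or.inr k
    · exact Or.inl k

theorem not_EP {g : Edg} (hg : g ∈ Clo N L r Ci Co) : g ∉ EP r (BxI N L ∪ TubI N L Ci Co) := by
  rw [EP_union]
  rintro (h1 | h1)
  · exact hg.1 h1
  · exact hg.2 h1

theorem Par.ctx (h : Par c N L r ρ l Ci Co R F u v) :
    PL.Ctx r ρ l (Bad 0 N L r ρ l (↑F : Set Edg)) Sz (fun w => Aw (vp w))
      (BxI N L ∪ TubI N L Ci Co) (CC N L r Ci Co R F) (↑F : Set Edg) u v := by
  obtain ⟨hl1, hl2, hl3⟩ := h.r64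
  have hr1 := h.hr1
  have hCp : Cp 0 (↑F : Set Edg) = (↑F : Set Edg) := by
    unfold Cp
    simp
  obtain ⟨⟨b1, b2⟩, b3⟩ := h.loc h.du
  have huv := h.nuv
  refine
    { hl := h.hl
      h1 := h.h1
      h2 := by have := h.h2; omega
      c1 := fun g hg => by
        rw [EP_union]
        exact (mem_FB.1 (Finset.mem_coe.1 hg.1)).2.1
      c2 := fun g hg1 hg2 hg3 => by
        rw [EP_union] at hg3
        exact ⟨Finset.mem_coe.2 (mem_FB.2 ⟨h.hF (Finset.mem_coe.1 hg1), hg3,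
          Finset.mem_coe.1 hg1⟩), hg2⟩
      c3 := fun g hg => Finset.mem_coe.2 (mem_FB.1 (Finset.mem_coe.1 hg.1)).2.2
      c4 := fun g hg => hg.2
      un := by
        obtain ⟨e, he, heu⟩ := h.du
        exact ⟨e, not_EP he, heu⟩
      un' := by
        obtain ⟨e, he, heu⟩ := h.dv
        exact ⟨e, not_EP he, heu⟩
      uy' := h.tv
      n1 := ?_
      n2 := ?_
      ex := fun Q hQ hQ2 => exit_CC h.hu Q hQ (fun w hw => (hQ2 w hw).2)
        (fun w hw => h.sec (hQ2 w hw).1.1 (hQ2 w hw).1.2)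
      ex' := fun Q hQ hQ2 => h.exv Q hQ hQ2
      hcor := ?_
      bc := ?_
      bv := ?_
      bh := ?_ }
  · unfold Nr at huv
    exact huv.1
  · unfold Nr at huv
    exact huv.2
  · intro ζ a1 a2 w d1 d2
    have hfar := h.far
    obtain ⟨A, hA⟩ : ∃ A : ℤ, A = r * ζ.1 := ⟨_, rfl⟩
    obtain ⟨B, hB⟩ : ∃ B : ℤ, B = r * ζ.2 := ⟨_, rfl⟩
    rw [← hA] at a1 d1
    rw [← hB] at a2 d2
    rw [abs_le] at a1 a2
    rw [abs_lt] at d1 d2
    push_cast at d1 d2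
    simp only [le_abs] at hfar
    show Aw (vp w)
    unfold Aw vp
    dsimp only
    rcases hfar with hf | hf | hf
    · left
      have k1 : (0 : ℤ) < ζ.1 - ζ.2 := by
        apply mlt (r := r)
        have : (r : ℤ) * (ζ.1 - ζ.2) = A - B := by rw [hA, hB]; ring
        rw [this]
        omega
      have k3 := mle (r := r) (show 1 ≤ ζ.1 - ζ.2 by omega)
      have k4 : (r : ℤ) * (ζ.1 - ζ.2) = A - B := by rw [hA, hB]; ring
      rw [k4] at k3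
      omega
    · right
      have k1 : (0 : ℤ) < ζ.1 + ζ.2 := by
        apply mlt (r := r)
        have : (r : ℤ) * (ζ.1 + ζ.2) = A + B := by rw [hA, hB]; ring
        rw [this]
        omega
      have k3 := mle (r := r) (show 1 ≤ ζ.1 + ζ.2 by omega)
      have k4 : (r : ℤ) * (ζ.1 + ζ.2) = A + B := by rw [hA, hB]; ring
      rw [k4] at k3
      omega
    · right
      have k1 : ζ.1 + ζ.2 < 0 := by
        apply mlt (r := r)
        have : (r : ℤ) * (ζ.1 + ζ.2) = A + B := by rw [hA, hB]; ring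
        rw [this]
        omega
      have k3 := mle (r := r) (show ζ.1 + ζ.2 ≤ -1 by omega)
      have k4 : (r : ℤ) * (ζ.1 + ζ.2) = A + B := by rw [hA, hB]; ring
      rw [k4] at k3
      omega
  · intro ζ a1 a2 hcr
    obtain ⟨p1, p2⟩ := ccrd (N := N) hr1 h.h2 a1 b1
    obtain ⟨p3, p4⟩ := ccrd (N := N) hr1 h.h2 a2 b2
    left
    refine ⟨ζ, ⟨p1, p3⟩, b3.imp p2 p4, ?_⟩
    rw [hCp]
    exact hcr
  · intro d x0 i j z hd a1 a2 a3 a4 hx0 hj hH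
    obtain ⟨p1, p2⟩ := coord (N := N) h.hl h.h1 a1 a2 a3 a4 b1
    right
    refine ⟨d, x0, u.2, i, j, ⟨p1, by linarith⟩, ?_, Or.inl ⟨hd, hx0, Or.inl hj⟩, ?_⟩
    · rcases b3 with b3 | b3
      · exact Or.inl (p2 b3)
      · right
        omega
    · rw [hCp]
      exact hH
  · intro d y0 i j z hd a1 a2 a3 a4 hx0 hj hH
    obtain ⟨p1, p2⟩ := coord (N := N) h.hl h.h1 a1 a2 a3 a4 b2
    right
    refine ⟨d, u.1, y0, i, j, ⟨by linarith, p1⟩, ?_, Or.inr ⟨hd, hx0, Or.inl hj⟩, ?_⟩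
    · rcases b3 with b3 | b3
      · left
        omega
      · exact Or.inr (p2 b3)
    · rw [hCp]
      exact hH

theorem Par.ball (h : Par c N L r ρ l Ci Co R F u v) :
    PL.Ball Sz (fun w => Aw (vp w)) ρ l u := by
  have hb : ∀ w : Vtx, inR (u.1 - ρ - l) (u.1 + ρ + l) (u.2 - ρ - l) (u.2 + ρ + l) w →
      Aw (vp w) := by
    intro w hw
    unfold inR at hw
    apply h.aw
    · rw [abs_le]; omega
    · rw [abs_le]; omega
  exact ⟨fun g hg _ => sz_of_aw (Or.inl (hb _ hg)), hb⟩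

theorem Par.main (h : Par c N L r ρ l Ci Co R F u v)
    (hBad : ¬ Bad 0 N L r ρ l (↑F : Set Edg)) :
    RZ {0} (bxz R) (↑(FB N L r Ci Co R F) : Set Edg) (vp u) (vp v) := by
  obtain ⟨a, b, -, hau, -, e, he, hev⟩ := exit_CC h.hu (fun w => w = u) rfl
    (fun w hw => h.aw (by rw [hw]; simp; omega) (by rw [hw]; simp; omega))
    (fun w hw => h.sec (by rw [hw]; simp) (by rw [hw]; simp))
  have hau' : a = u := hau
  subst hau'
  have he' : e ∈ EP r (BxI N L ∪ TubI N L Ci Co) := by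
    rw [EP_union]
    exact (mem_FB.1 (Finset.mem_coe.1 he.1)).2.1
  obtain ⟨z, hz, hza, -⟩ := EP_loc he' hev
  rcases PL.planar h.ctx hz hza h.ball with hbad | ⟨Q, -, -, hreach⟩
  · exact absurd hbad hBad
  · exact CC_reach FB_bxz (hreach.mono Set.inter_subset_left)

end

end SB

open SB in
/-- **KI-SEPB1** -/
theorem t_SEPB1 (_h1 : S_z1) (_h2 : S_z2) (h3 : S_z3) (h4 : S_FRB) : S_SEPB1 := by
  intro c N L r ρ l Ci Co R hc hg hl h1 h2 F hF hBad hBZ hX u v hu du dv kv nuv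
  obtain ⟨-, -, hz⟩ := h3 N L Ci Co hg.hN hg.hL hg.hi hg.ho _ rfl
  have hfr := h4 c N L r ρ Ci Co R hc hg (by omega) h2 F hF hBZ hX (vp u) hu
  have hp : Par c N L r ρ l Ci Co R F u v :=
    { hc := hc
      g := hg
      hl := hl
      h1 := h1
      h2 := h2
      hF := hF
      zip := fun z hz' => (hz z hz').2.2
      hX := hX
      hfrb := hfr
      hu := hu
      du := du
      dv := dv
      kv := kv
      nuv := nuv }
  exact hp.main hBad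

end Pool.Agent.W782.KI
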