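import Pool.Agent.W808.KZ.T_SEPB0

/-!
# Separation at the boundary of a union of coarse squares: the planar part, with an arbitrary bad event
(adapted from `Pool.Agent.W808.KZ.T_SEPB0`; the second vertex is only joined to distance `ρ + l`)
-/

set_option autoImplicit false

namespace Pool.Agent.W782.KI
open H974 H906.Cyl
open H12S (Dir hbE segD rimE H4 H3g Crs Nr sqE FD_nb FD_nb_of FD_mem_RE FD_of_mem_RE FD_div)
open Pool.Agent.H160R2.ML (nm)
open Pool.Agent.H160R2.MU (Cel csq EP inSq)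
open Pool.Agent.H160R2.MU.TSEPB (sq_uniq sq_below EP_loc EP_of nb_sym hb_case)
open Pool.Agent.W808.KZ.TSEPB0 (H4_S)

namespace PL

/-- common data -/
structure Ctx (r ρ l : ℕ) (Bd : Prop) (S : Set Edg) (AA : Vtx → Prop) (P : Set (ℤ × ℤ))
    (C CF : Set Edg) (u u' : Vtx) : Prop where
  hl : 1 ≤ l
  h1 : 32 * l ≤ ρ
  h2 : 32 * ρ ≤ r
  c1 : ∀ g ∈ C, g ∈ EP r P
  c2 : ∀ g ∈ CF, g ∈ S → g ∈ EP r P → g ∈ C
  c3 : C ⊆ CF
  c4 : C ⊆ S
  un : ∃ g, g ∉ EP r P ∧ (src g = u ∨ tgt g = u)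
  un' : ∃ g, g ∉ EP r P ∧ (src g = u' ∨ tgt g = u')
  uy' : ∃ g ∈ EP r P, (src g = u' ∨ tgt g = u')
  n1 : |u.1 - u'.1| ≤ 4 * l
  n2 : |u.2 - u'.2| ≤ 4 * l
  ex : ∀ R : Vtx → Prop, R u → (∀ v, R v → (|v.1 - u.1| ≤ r ∧ |v.2 - u.2| ≤ r) ∧ AA v) →
      ∃ v w, Reach (C ∩ {e | R (src e) ∧ R (tgt e)}) u v ∧ R v ∧ ¬ R w ∧
        ∃ e ∈ C, (src e = v ∧ tgt e = w) ∨ (src e = w ∧ tgt e = v)
  ex' : ∀ R : Vtx → Prop, R u' →
      (∀ v, R v → (|v.1 - u.1| ≤ ρ + l ∧ |v.2 - u.2| ≤ ρ + l) ∧ AA v) →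
      ∃ v w, Reach (C ∩ {e | R (src e) ∧ R (tgt e)}) u' v ∧ R v ∧ ¬ R w ∧
        ∃ e ∈ C, (src e = v ∧ tgt e = w) ∨ (src e = w ∧ tgt e = v)
  hcor : ∀ ζ : ℤ × ℤ, |u.1 - r * ζ.1| ≤ 3 * ρ → |u.2 - r * ζ.2| ≤ 3 * ρ → ∀ v : Vtx,
    |v.1 - r * ζ.1| < ((r / 2 : ℕ) : ℤ) → |v.2 - r * ζ.2| < ((r / 2 : ℕ) : ℤ) → AA v
  bc : ∀ ζ : ℤ × ℤ, |u.1 - r * ζ.1| ≤ 3 * ρ → |u.2 - r * ζ.2| ≤ 3 * ρ →
    Crs (r * ζ.1) (r * ζ.2) (4 * ρ) (r / 2) CF → Bd
  bv : ∀ (d : Dir) (x0 i j z : ℤ), (d = Dir.up ∨ d = Dir.dn) → r * z + 2 * ρ < u.1 →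
    u.1 < r * z + r - 2 * ρ → x0 ≤ u.1 → u.1 < x0 + l → x0 = l * i → u.2 = r * j →
    H4 d x0 u.2 (8 * l) ρ CF → Bd
  bh : ∀ (d : Dir) (x0 i j z : ℤ), (d = Dir.rt ∨ d = Dir.lf) → r * z + 2 * ρ < u.2 →
    u.2 < r * z + r - 2 * ρ → x0 ≤ u.2 → u.2 < x0 + l → x0 = l * i → u.1 = r * j →
    H4 d u.1 x0 (8 * l) ρ CF → Bd

/-- the edges near `u` are in `S` and the vertices near `u` satisfy `AA` -/
def Ball (S : Set Edg) (AA : Vtx → Prop) (ρ l : ℕ) (u : Vtx) : Prop := (∀ g : Edg,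
  inR (u.1 - ρ - l) (u.1 + ρ + l) (u.2 - ρ - l) (u.2 + ρ + l) (src g) →
  inR (u.1 - ρ - l) (u.1 + ρ + l) (u.2 - ρ - l) (u.2 + ρ + l) (tgt g) → g ∈ S) ∧
  ∀ v : Vtx, inR (u.1 - ρ - l) (u.1 + ρ + l) (u.2 - ρ - l) (u.2 + ρ + l) v → AA v

/-- the conclusion -/
def Con (r : ℕ) (Bd : Prop) (C : Set Edg) (u u' : Vtx) : Prop :=
  Bd ∨ ∃ R : Vtx → Prop, (∀ v, R v → |v.1 - u.1| ≤ r ∧ |v.2 - u.2| ≤ r) ∧ R u ∧
    Reach (C ∩ {e | R (src e) ∧ R (tgt e)}) u u'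

section
variable {r ρ l : ℕ} {Bd : Prop} {S : Set Edg} {AA : Vtx → Prop} {P : Set (ℤ × ℤ)} {C CF : Set Edg}
  {u u' : Vtx}

/-- near a coarse vertex -/
theorem corner (h : Ctx r ρ l Bd S AA P C CF u u') {ζ : ℤ × ℤ} (a1 : |u.1 - r * ζ.1| ≤ 3 * ρ)
    (a2 : |u.2 - r * ζ.2| ≤ 3 * ρ) : Con r Bd C u u' := by
  have b1 := h.hl
  have b2 := h.h1
  have b3 := h.h2
  have hr : (0 : ℤ) < r := by have : 0 < r := by omega
                              exact_mod_cast this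
  left
  refine h.bc ζ a1 a2 ?_
  · have a1' := a1
    have a2' := a2
    obtain ⟨A, hA⟩ : ∃ A : ℤ, A = r * ζ.1 := ⟨_, rfl⟩
    obtain ⟨B, hB⟩ : ∃ B : ℤ, B = r * ζ.2 := ⟨_, rfl⟩
    rw [← hA] at a1
    rw [← hB] at a2
    rw [← hA, ← hB]
    rw [abs_le] at a1 a2
    obtain ⟨v, w, k1, k2, k3, e, he, hvw⟩ := h.ex
      (fun v => |v.1 - A| < ((r / 2 : ℕ) : ℤ) ∧ |v.2 - B| < ((r / 2 : ℕ) : ℤ))
      (by
        rw [abs_lt, abs_lt]
        push_cast
        omega)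
      (by
        intro v hv
        refine ⟨?_, h.hcor ζ a1' a2' v (hA ▸ hv.1) (hB ▸ hv.2)⟩
        rw [abs_lt, abs_lt] at hv
        rw [abs_le, abs_le]
        push_cast at hv
        omega)
    refine ⟨u, w, ?_, ?_, ?_⟩
    · unfold inR
      push_cast
      omega
    · rw [abs_lt, abs_lt] at k3
      push_cast at k3 ⊢
      omega
    · exact (k1.mono fun g hg => h.c3 hg.1).trans (Adj.reach ⟨e, h.c3 he, hvw⟩)

theorem dir_up (h : Ctx r ρ l Bd S AA P C CF u u') (hdi : Ball S AA ρ l u)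
    {z : ℤ × ℤ} (hz : z ∈ P) (hz' : (z.1, z.2 - 1) ∉ P) (a1 : r * z.1 + 2 * ρ < u.1) (a2 : u.1 < r * z.1 + r - 2 * ρ)
    (a3 : u.2 = r * z.2) : Con r Bd C u u' := by
  have b1 := h.hl
  have b2 := h.h1
  have b3 := h.h2
  have hr : 1 ≤ r := by omega
  have n1 := h.n1
  have n2 := h.n2
  rw [abs_le] at n1 n2
  obtain ⟨A, hA⟩ : ∃ A : ℤ, A = (r : ℤ) * z.1 := ⟨_, rfl⟩
  obtain ⟨E, hE0⟩ : ∃ E : ℤ, E = (r : ℤ) * z.2 := ⟨_, rfl⟩
  obtain ⟨B, hB⟩ : ∃ B : ℤ, B = E := ⟨_, rfl⟩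
  have hzp : (r : ℤ) * (z.2 - 1) = E - r := by rw [hE0]; ring
  have hBj : B = r * z.2 := by rw [hB, hE0]
  -- location of squares of `P` near the line
  have tang : ∀ (q : ℤ × ℤ) (x : ℤ), A < x → x < A + r → (r : ℤ) * q.1 ≤ x → x ≤ (r : ℤ) * q.1 + r →
      q.1 = z.1 := by
    intro q x k1 k2 k3 k4
    exact sq_uniq hr (hA ▸ k1) (hA ▸ k2) k3 k4
  rw [← hA] at a1 a2
  have a3' : u.2 = B := by rw [a3, hB, hE0]
  have hu'2 : u'.2 = B := by
    rcases lt_trichotomy u'.2 B with hlt | heq | hgt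
    · exfalso
      obtain ⟨g, hg, hgu⟩ := h.uy'
      obtain ⟨q, hq, hq1⟩ : ∃ q ∈ P, inSq r q u' := by
        rcases hgu with hgu | hgu
        · obtain ⟨q, hq, hq1, -⟩ := EP_loc hg (Or.inl ⟨hgu, rfl⟩)
          exact ⟨q, hq, hq1⟩
        · obtain ⟨q, hq, -, hq1⟩ := EP_loc hg (Or.inl ⟨rfl, hgu⟩)
          exact ⟨q, hq, hq1⟩
      unfold inSq at hq1
      have k1 : q.1 = z.1 := tang q u'.1 (by omega) (by omega) (by omega) (by omega)
      have k2 : q.2 = z.2 - 1 := by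
        refine sq_uniq hr (x := u'.2) ?_ ?_ ?_ ?_
        · rw [hzp]; omega
        · rw [hzp]; omega
        · omega
        · omega
      exact hz' (by rw [← k2, ← k1]; exact hq)
    · exact heq
    · exfalso
      obtain ⟨g, hg, hgu⟩ := h.un'
      apply hg
      have hnb : ∀ w : Vtx, (w = u' ∨ FD_nb u' w) → inSq r z w := by
        intro w hw
        unfold inSq
        rw [← hA, ← hE0]
        rcases hw with rfl | hw
        · omega
        · unfold FD_nb at hw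
          omega
      rcases hgu with hgu | hgu
      · exact EP_of hz (hnb _ (Or.inl hgu)) (hnb _ (Or.inr (FD_nb_of (Or.inl ⟨hgu, rfl⟩))))
      · exact EP_of hz (hnb _ (Or.inr (FD_nb_of (Or.inr ⟨rfl, hgu⟩)))) (hnb _ (Or.inl hgu))
  obtain ⟨i, hi1, hi2⟩ : ∃ i : ℤ, (l : ℤ) * i ≤ u.1 ∧ u.1 < (l : ℤ) * i + l :=
    ⟨u.1 / l, (FD_div b1).1 rfl⟩
  obtain ⟨x0, hx0⟩ : ∃ x0 : ℤ, x0 = (l : ℤ) * i := ⟨_, rfl⟩
  rw [← hx0] at hi1 hi2
  have hEq : hbE Dir.up x0 B ρ = RE (x0 - ρ) (x0 + ρ) B (B + ρ) := rfl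
  have hrimdef : ∀ w : Vtx, w ∈ rimE Dir.up x0 B ρ ↔ (inR (x0 - ρ) (x0 + ρ) B (B + ρ) w ∧
      (w.1 = x0 - ρ ∨ w.1 = x0 + ρ ∨ w.2 = B + ρ)) := fun w => Iff.rfl
  have hsegdef : ∀ v : Vtx, v ∈ segD Dir.up x0 B (8 * l) ↔ (v.2 = B ∧ x0 - (8 * l : ℕ) ≤ v.1 ∧ v.1 ≤ x0 + (8 * l : ℕ)) := fun v => Iff.rfl
  have key : H4 Dir.up x0 B (8 * l) ρ (CF ∩ S) ∨ Reach (C ∩ {e | inR (x0 - ρ) (x0 + ρ) B (B + ρ) (src e) ∧
      inR (x0 - ρ) (x0 + ρ) B (B + ρ) (tgt e)}) u u' := by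
    refine hb_case (P := P) (r := r) (CF := CF ∩ S) h.c1 (fun g hg hg2 => h.c2 g hg.1 hg.2 hg2)
      (fun g hg => ⟨h.c3 hg, h.c4 hg⟩) hEq ?_ ?_ ?_ ?_ ?_ ?_ ?_ ?_
    · intro w w2 hw hwr g hg hgw
      rw [hrimdef] at hwr
      have hwr' : ¬ (w.1 = x0 - ρ ∨ w.1 = x0 + ρ ∨ w.2 = B + ρ) := fun hh => hwr ⟨hw, hh⟩
      obtain ⟨q, hq, hq1, hq2⟩ := EP_loc hg hgw
      have hnb := FD_nb_of hgw
      unfold inR at hw ⊢
      unfold FD_nb at hnb
      unfold inSq at hq1 hq2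
      by_cases h5 : w2.2 < B
      · exfalso
        have k1 : q.1 = z.1 := tang q w.1 (by omega) (by omega) (by omega) (by omega)
        have k2 : q.2 = z.2 - 1 := by
          refine sq_below hr ?_ ?_
          · rw [← hE0]; omega
          · rw [← hE0]; omega
        exact hz' (by rw [← k2, ← k1]; exact hq)
      · omega
    · intro g hg
      obtain ⟨g1, g2⟩ := FD_of_mem_RE hg
      unfold inR at g1 g2
      refine EP_of hz ?_ ?_ <;> · unfold inSq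
                                  rw [← hA, ← hE0]
                                  omega
    · unfold inR
      omega
    · unfold inR
      omega
    · rw [hsegdef]
      push_cast
      omega
    · rw [hsegdef]
      push_cast
      omega
    · intro R hR hR2
      refine h.ex R hR fun v hv => ⟨?_, hdi.2 v ?_⟩
      · have := hR2 v hv
        unfold inR at this
        rw [abs_le, abs_le]
        omega
      · have := hR2 v hv
        unfold inR at this ⊢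
        omega
    · intro R hR hR2
      refine h.ex' R hR fun v hv => ⟨?_, hdi.2 v ?_⟩
      · have := hR2 v hv
        unfold inR at this
        rw [abs_le, abs_le]
        omega
      · have := hR2 v hv
        unfold inR at this ⊢
        omega
  have hball : ∀ g ∈ RE (x0 - ρ) (x0 + ρ) B (B + ρ), g ∈ S := by
    intro g hg
    obtain ⟨g1, g2⟩ := FD_of_mem_RE hg
    refine hdi.1 g ?_ ?_ <;> (unfold inR at g1 g2 ⊢; omega)
  rcases key with hres | hres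
  · left
    refine h.bv Dir.up x0 i z.2 z.1 (Or.inl rfl) (hA ▸ a1) (hA ▸ a2) hi1 hi2 hx0 a3 ?_
    rw [a3']
    exact H4_S (fun g hg => hball g (hEq ▸ hg)) hres
  · right
    refine ⟨fun v => inR (x0 - ρ) (x0 + ρ) B (B + ρ) v, ?_, ?_, hres⟩
    · intro v hv
      unfold inR at hv
      rw [abs_le, abs_le]
      omega
    · unfold inR
      omega

theorem dir_dn (h : Ctx r ρ l Bd S AA P C CF u u') (hdi : Ball S AA ρ l u)
    {z : ℤ × ℤ} (hz : z ∈ P) (hz' : (z.1, z.2 + 1) ∉ P) (a1 : r * z.1 + 2 * ρ < u.1) (a2 : u.1 < r * z.1 + r - 2 * ρ)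
    (a3 : u.2 = r * z.2 + r) : Con r Bd C u u' := by
  have b1 := h.hl
  have b2 := h.h1
  have b3 := h.h2
  have hr : 1 ≤ r := by omega
  have n1 := h.n1
  have n2 := h.n2
  rw [abs_le] at n1 n2
  obtain ⟨A, hA⟩ : ∃ A : ℤ, A = (r : ℤ) * z.1 := ⟨_, rfl⟩
  obtain ⟨E, hE0⟩ : ∃ E : ℤ, E = (r : ℤ) * z.2 := ⟨_, rfl⟩
  obtain ⟨B, hB⟩ : ∃ B : ℤ, B = E + r := ⟨_, rfl⟩
  have hzp : (r : ℤ) * (z.2 + 1) = E + r := by rw [hE0]; ring
  have hBj : B = r * (z.2 + 1) := by rw [hB, hE0]; ring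
  -- location of squares of `P` near the line
  have tang : ∀ (q : ℤ × ℤ) (x : ℤ), A < x → x < A + r → (r : ℤ) * q.1 ≤ x → x ≤ (r : ℤ) * q.1 + r →
      q.1 = z.1 := by
    intro q x k1 k2 k3 k4
    exact sq_uniq hr (hA ▸ k1) (hA ▸ k2) k3 k4
  rw [← hA] at a1 a2
  have a3' : u.2 = B := by rw [a3, hB, hE0]
  have hu'2 : u'.2 = B := by
    rcases lt_trichotomy u'.2 B with hlt | heq | hgt
    · exfalso
      obtain ⟨g, hg, hgu⟩ := h.un'
      apply hg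
      have hnb : ∀ w : Vtx, (w = u' ∨ FD_nb u' w) → inSq r z w := by
        intro w hw
        unfold inSq
        rw [← hA, ← hE0]
        rcases hw with rfl | hw
        · omega
        · unfold FD_nb at hw
          omega
      rcases hgu with hgu | hgu
      · exact EP_of hz (hnb _ (Or.inl hgu)) (hnb _ (Or.inr (FD_nb_of (Or.inl ⟨hgu, rfl⟩))))
      · exact EP_of hz (hnb _ (Or.inr (FD_nb_of (Or.inr ⟨rfl, hgu⟩)))) (hnb _ (Or.inl hgu))
    · exact heq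
    · exfalso
      obtain ⟨g, hg, hgu⟩ := h.uy'
      obtain ⟨q, hq, hq1⟩ : ∃ q ∈ P, inSq r q u' := by
        rcases hgu with hgu | hgu
        · obtain ⟨q, hq, hq1, -⟩ := EP_loc hg (Or.inl ⟨hgu, rfl⟩)
          exact ⟨q, hq, hq1⟩
        · obtain ⟨q, hq, -, hq1⟩ := EP_loc hg (Or.inl ⟨rfl, hgu⟩)
          exact ⟨q, hq, hq1⟩
      unfold inSq at hq1
      have k1 : q.1 = z.1 := tang q u'.1 (by omega) (by omega) (by omega) (by omega)
      have k2 : q.2 = z.2 + 1 := by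
        refine sq_uniq hr (x := u'.2) ?_ ?_ ?_ ?_
        · rw [hzp]; omega
        · rw [hzp]; omega
        · omega
        · omega
      exact hz' (by rw [← k2, ← k1]; exact hq)
  obtain ⟨i, hi1, hi2⟩ : ∃ i : ℤ, (l : ℤ) * i ≤ u.1 ∧ u.1 < (l : ℤ) * i + l :=
    ⟨u.1 / l, (FD_div b1).1 rfl⟩
  obtain ⟨x0, hx0⟩ : ∃ x0 : ℤ, x0 = (l : ℤ) * i := ⟨_, rfl⟩
  rw [← hx0] at hi1 hi2
  have hEq : hbE Dir.dn x0 B ρ = RE (x0 - ρ) (x0 + ρ) (B - ρ) B := rfl
  have hrimdef : ∀ w : Vtx, w ∈ rimE Dir.dn x0 B ρ ↔ (inR (x0 - ρ) (x0 + ρ) (B - ρ) B w ∧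
      (w.1 = x0 - ρ ∨ w.1 = x0 + ρ ∨ w.2 = B - ρ)) := fun w => Iff.rfl
  have hsegdef : ∀ v : Vtx, v ∈ segD Dir.dn x0 B (8 * l) ↔ (v.2 = B ∧ x0 - (8 * l : ℕ) ≤ v.1 ∧ v.1 ≤ x0 + (8 * l : ℕ)) := fun v => Iff.rfl
  have key : H4 Dir.dn x0 B (8 * l) ρ (CF ∩ S) ∨ Reach (C ∩ {e | inR (x0 - ρ) (x0 + ρ) (B - ρ) B (src e) ∧
      inR (x0 - ρ) (x0 + ρ) (B - ρ) B (tgt e)}) u u' := by
    refine hb_case (P := P) (r := r) (CF := CF ∩ S) h.c1 (fun g hg hg2 => h.c2 g hg.1 hg.2 hg2)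
      (fun g hg => ⟨h.c3 hg, h.c4 hg⟩) hEq ?_ ?_ ?_ ?_ ?_ ?_ ?_ ?_
    · intro w w2 hw hwr g hg hgw
      rw [hrimdef] at hwr
      have hwr' : ¬ (w.1 = x0 - ρ ∨ w.1 = x0 + ρ ∨ w.2 = B - ρ) := fun hh => hwr ⟨hw, hh⟩
      obtain ⟨q, hq, hq1, hq2⟩ := EP_loc hg hgw
      have hnb := FD_nb_of hgw
      unfold inR at hw ⊢
      unfold FD_nb at hnb
      unfold inSq at hq1 hq2
      by_cases h5 : B < w2.2
      · exfalso
        have k1 : q.1 = z.1 := tang q w.1 (by omega) (by omega) (by omega) (by omega)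
        have k2 : q.2 = z.2 + 1 := by
          have hh : z.2 = q.2 - 1 := by
            refine sq_below hr ?_ ?_
            · rw [← hE0]; omega
            · rw [← hE0]; omega
          omega
        exact hz' (by rw [← k2, ← k1]; exact hq)
      · omega
    · intro g hg
      obtain ⟨g1, g2⟩ := FD_of_mem_RE hg
      unfold inR at g1 g2
      refine EP_of hz ?_ ?_ <;> · unfold inSq
                                  rw [← hA, ← hE0]
                                  omega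
    · unfold inR
      omega
    · unfold inR
      omega
    · rw [hsegdef]
      push_cast
      omega
    · rw [hsegdef]
      push_cast
      omega
    · intro R hR hR2
      refine h.ex R hR fun v hv => ⟨?_, hdi.2 v ?_⟩
      · have := hR2 v hv
        unfold inR at this
        rw [abs_le, abs_le]
        omega
      · have := hR2 v hv
        unfold inR at this ⊢
        omega
    · intro R hR hR2
      refine h.ex' R hR fun v hv => ⟨?_, hdi.2 v ?_⟩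
      · have := hR2 v hv
        unfold inR at this
        rw [abs_le, abs_le]
        omega
      · have := hR2 v hv
        unfold inR at this ⊢
        omega
  have hball : ∀ g ∈ RE (x0 - ρ) (x0 + ρ) (B - ρ) B, g ∈ S := by
    intro g hg
    obtain ⟨g1, g2⟩ := FD_of_mem_RE hg
    refine hdi.1 g ?_ ?_ <;> (unfold inR at g1 g2 ⊢; omega)
  rcases key with hres | hres
  · left
    refine h.bv Dir.dn x0 i (z.2 + 1) z.1 (Or.inr rfl) (hA ▸ a1) (hA ▸ a2) hi1 hi2 hx0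
      (by rw [a3, mul_add, mul_one]) ?_
    rw [a3']
    exact H4_S (fun g hg => hball g (hEq ▸ hg)) hres
  · right
    refine ⟨fun v => inR (x0 - ρ) (x0 + ρ) (B - ρ) B v, ?_, ?_, hres⟩
    · intro v hv
      unfold inR at hv
      rw [abs_le, abs_le]
      omega
    · unfold inR
      omega

theorem dir_rt (h : Ctx r ρ l Bd S AA P C CF u u') (hdi : Ball S AA ρ l u)
    {z : ℤ × ℤ} (hz : z ∈ P) (hz' : (z.1 - 1, z.2) ∉ P) (a1 : r * z.2 + 2 * ρ < u.2) (a2 : u.2 < r * z.2 + r - 2 * ρ)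
    (a3 : u.1 = r * z.1) : Con r Bd C u u' := by
  have b1 := h.hl
  have b2 := h.h1
  have b3 := h.h2
  have hr : 1 ≤ r := by omega
  have n1 := h.n1
  have n2 := h.n2
  rw [abs_le] at n1 n2
  obtain ⟨A, hA⟩ : ∃ A : ℤ, A = (r : ℤ) * z.2 := ⟨_, rfl⟩
  obtain ⟨E, hE0⟩ : ∃ E : ℤ, E = (r : ℤ) * z.1 := ⟨_, rfl⟩
  obtain ⟨B, hB⟩ : ∃ B : ℤ, B = E := ⟨_, rfl⟩
  have hzp : (r : ℤ) * (z.1 - 1) = E - r := by rw [hE0]; ring
  have hBj : B = r * z.1 := by rw [hB, hE0]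
  -- location of squares of `P` near the line
  have tang : ∀ (q : ℤ × ℤ) (x : ℤ), A < x → x < A + r → (r : ℤ) * q.2 ≤ x → x ≤ (r : ℤ) * q.2 + r →
      q.2 = z.2 := by
    intro q x k1 k2 k3 k4
    exact sq_uniq hr (hA ▸ k1) (hA ▸ k2) k3 k4
  rw [← hA] at a1 a2
  have a3' : u.1 = B := by rw [a3, hB, hE0]
  have hu'2 : u'.1 = B := by
    rcases lt_trichotomy u'.1 B with hlt | heq | hgt
    · exfalso
      obtain ⟨g, hg, hgu⟩ := h.uy'
      obtain ⟨q, hq, hq1⟩ : ∃ q ∈ P, inSq r q u' := by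
        rcases hgu with hgu | hgu
        · obtain ⟨q, hq, hq1, -⟩ := EP_loc hg (Or.inl ⟨hgu, rfl⟩)
          exact ⟨q, hq, hq1⟩
        · obtain ⟨q, hq, -, hq1⟩ := EP_loc hg (Or.inl ⟨rfl, hgu⟩)
          exact ⟨q, hq, hq1⟩
      unfold inSq at hq1
      have k1 : q.2 = z.2 := tang q u'.2 (by omega) (by omega) (by omega) (by omega)
      have k2 : q.1 = z.1 - 1 := by
        refine sq_uniq hr (x := u'.1) ?_ ?_ ?_ ?_
        · rw [hzp]; omega
        · rw [hzp]; omega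
        · omega
        · omega
      exact hz' (by rw [← k2, ← k1]; exact hq)
    · exact heq
    · exfalso
      obtain ⟨g, hg, hgu⟩ := h.un'
      apply hg
      have hnb : ∀ w : Vtx, (w = u' ∨ FD_nb u' w) → inSq r z w := by
        intro w hw
        unfold inSq
        rw [← hA, ← hE0]
        rcases hw with rfl | hw
        · omega
        · unfold FD_nb at hw
          omega
      rcases hgu with hgu | hgu
      · exact EP_of hz (hnb _ (Or.inl hgu)) (hnb _ (Or.inr (FD_nb_of (Or.inl ⟨hgu, rfl⟩))))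
      · exact EP_of hz (hnb _ (Or.inr (FD_nb_of (Or.inr ⟨rfl, hgu⟩)))) (hnb _ (Or.inl hgu))
  obtain ⟨i, hi1, hi2⟩ : ∃ i : ℤ, (l : ℤ) * i ≤ u.2 ∧ u.2 < (l : ℤ) * i + l :=
    ⟨u.2 / l, (FD_div b1).1 rfl⟩
  obtain ⟨x0, hx0⟩ : ∃ x0 : ℤ, x0 = (l : ℤ) * i := ⟨_, rfl⟩
  rw [← hx0] at hi1 hi2
  have hEq : hbE Dir.rt B x0 ρ = RE B (B + ρ) (x0 - ρ) (x0 + ρ) := rfl
  have hrimdef : ∀ w : Vtx, w ∈ rimE Dir.rt B x0 ρ ↔ (inR B (B + ρ) (x0 - ρ) (x0 + ρ) w ∧
      (w.1 = B + ρ ∨ w.2 = x0 - ρ ∨ w.2 = x0 + ρ)) := fun w => Iff.rfl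
  have hsegdef : ∀ v : Vtx, v ∈ segD Dir.rt B x0 (8 * l) ↔ (v.1 = B ∧ x0 - (8 * l : ℕ) ≤ v.2 ∧ v.2 ≤ x0 + (8 * l : ℕ)) := fun v => Iff.rfl
  have key : H4 Dir.rt B x0 (8 * l) ρ (CF ∩ S) ∨ Reach (C ∩ {e | inR B (B + ρ) (x0 - ρ) (x0 + ρ) (src e) ∧
      inR B (B + ρ) (x0 - ρ) (x0 + ρ) (tgt e)}) u u' := by
    refine hb_case (P := P) (r := r) (CF := CF ∩ S) h.c1 (fun g hg hg2 => h.c2 g hg.1 hg.2 hg2)
      (fun g hg => ⟨h.c3 hg, h.c4 hg⟩) hEq ?_ ?_ ?_ ?_ ?_ ?_ ?_ ?_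
    · intro w w2 hw hwr g hg hgw
      rw [hrimdef] at hwr
      have hwr' : ¬ (w.1 = B + ρ ∨ w.2 = x0 - ρ ∨ w.2 = x0 + ρ) := fun hh => hwr ⟨hw, hh⟩
      obtain ⟨q, hq, hq1, hq2⟩ := EP_loc hg hgw
      have hnb := FD_nb_of hgw
      unfold inR at hw ⊢
      unfold FD_nb at hnb
      unfold inSq at hq1 hq2
      by_cases h5 : w2.1 < B
      · exfalso
        have k1 : q.2 = z.2 := tang q w.2 (by omega) (by omega) (by omega) (by omega)
        have k2 : q.1 = z.1 - 1 := by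
          refine sq_below hr ?_ ?_
          · rw [← hE0]; omega
          · rw [← hE0]; omega
        exact hz' (by rw [← k2, ← k1]; exact hq)
      · omega
    · intro g hg
      obtain ⟨g1, g2⟩ := FD_of_mem_RE hg
      unfold inR at g1 g2
      refine EP_of hz ?_ ?_ <;> · unfold inSq
                                  rw [← hA, ← hE0]
                                  omega
    · unfold inR
      omega
    · unfold inR
      omega
    · rw [hsegdef]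
      push_cast
      omega
    · rw [hsegdef]
      push_cast
      omega
    · intro R hR hR2
      refine h.ex R hR fun v hv => ⟨?_, hdi.2 v ?_⟩
      · have := hR2 v hv
        unfold inR at this
        rw [abs_le, abs_le]
        omega
      · have := hR2 v hv
        unfold inR at this ⊢
        omega
    · intro R hR hR2
      refine h.ex' R hR fun v hv => ⟨?_, hdi.2 v ?_⟩
      · have := hR2 v hv
        unfold inR at this
        rw [abs_le, abs_le]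
        omega
      · have := hR2 v hv
        unfold inR at this ⊢
        omega
  have hball : ∀ g ∈ RE B (B + ρ) (x0 - ρ) (x0 + ρ), g ∈ S := by
    intro g hg
    obtain ⟨g1, g2⟩ := FD_of_mem_RE hg
    refine hdi.1 g ?_ ?_ <;> (unfold inR at g1 g2 ⊢; omega)
  rcases key with hres | hres
  · left
    refine h.bh Dir.rt x0 i z.1 z.2 (Or.inl rfl) (hA ▸ a1) (hA ▸ a2) hi1 hi2 hx0 a3 ?_
    rw [a3']
    exact H4_S (fun g hg => hball g (hEq ▸ hg)) hres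
  · right
    refine ⟨fun v => inR B (B + ρ) (x0 - ρ) (x0 + ρ) v, ?_, ?_, hres⟩
    · intro v hv
      unfold inR at hv
      rw [abs_le, abs_le]
      omega
    · unfold inR
      omega

theorem dir_lf (h : Ctx r ρ l Bd S AA P C CF u u') (hdi : Ball S AA ρ l u)
    {z : ℤ × ℤ} (hz : z ∈ P) (hz' : (z.1 + 1, z.2) ∉ P) (a1 : r * z.2 + 2 * ρ < u.2) (a2 : u.2 < r * z.2 + r - 2 * ρ)
    (a3 : u.1 = r * z.1 + r) : Con r Bd C u u' := by
  have b1 := h.hl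
  have b2 := h.h1
  have b3 := h.h2
  have hr : 1 ≤ r := by omega
  have n1 := h.n1
  have n2 := h.n2
  rw [abs_le] at n1 n2
  obtain ⟨A, hA⟩ : ∃ A : ℤ, A = (r : ℤ) * z.2 := ⟨_, rfl⟩
  obtain ⟨E, hE0⟩ : ∃ E : ℤ, E = (r : ℤ) * z.1 := ⟨_, rfl⟩
  obtain ⟨B, hB⟩ : ∃ B : ℤ, B = E + r := ⟨_, rfl⟩
  have hzp : (r : ℤ) * (z.1 + 1) = E + r := by rw [hE0]; ring
  have hBj : B = r * (z.1 + 1) := by rw [hB, hE0]; ring
  -- location of squares of `P` near the line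
  have tang : ∀ (q : ℤ × ℤ) (x : ℤ), A < x → x < A + r → (r : ℤ) * q.2 ≤ x → x ≤ (r : ℤ) * q.2 + r →
      q.2 = z.2 := by
    intro q x k1 k2 k3 k4
    exact sq_uniq hr (hA ▸ k1) (hA ▸ k2) k3 k4
  rw [← hA] at a1 a2
  have a3' : u.1 = B := by rw [a3, hB, hE0]
  have hu'2 : u'.1 = B := by
    rcases lt_trichotomy u'.1 B with hlt | heq | hgt
    · exfalso
      obtain ⟨g, hg, hgu⟩ := h.un'
      apply hg
      have hnb : ∀ w : Vtx, (w = u' ∨ FD_nb u' w) → inSq r z w := by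
        intro w hw
        unfold inSq
        rw [← hA, ← hE0]
        rcases hw with rfl | hw
        · omega
        · unfold FD_nb at hw
          omega
      rcases hgu with hgu | hgu
      · exact EP_of hz (hnb _ (Or.inl hgu)) (hnb _ (Or.inr (FD_nb_of (Or.inl ⟨hgu, rfl⟩))))
      · exact EP_of hz (hnb _ (Or.inr (FD_nb_of (Or.inr ⟨rfl, hgu⟩)))) (hnb _ (Or.inl hgu))
    · exact heq
    · exfalso
      obtain ⟨g, hg, hgu⟩ := h.uy'
      obtain ⟨q, hq, hq1⟩ : ∃ q ∈ P, inSq r q u' := by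
        rcases hgu with hgu | hgu
        · obtain ⟨q, hq, hq1, -⟩ := EP_loc hg (Or.inl ⟨hgu, rfl⟩)
          exact ⟨q, hq, hq1⟩
        · obtain ⟨q, hq, -, hq1⟩ := EP_loc hg (Or.inl ⟨rfl, hgu⟩)
          exact ⟨q, hq, hq1⟩
      unfold inSq at hq1
      have k1 : q.2 = z.2 := tang q u'.2 (by omega) (by omega) (by omega) (by omega)
      have k2 : q.1 = z.1 + 1 := by
        refine sq_uniq hr (x := u'.1) ?_ ?_ ?_ ?_
        · rw [hzp]; omega
        · rw [hzp]; omega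
        · omega
        · omega
      exact hz' (by rw [← k2, ← k1]; exact hq)
  obtain ⟨i, hi1, hi2⟩ : ∃ i : ℤ, (l : ℤ) * i ≤ u.2 ∧ u.2 < (l : ℤ) * i + l :=
    ⟨u.2 / l, (FD_div b1).1 rfl⟩
  obtain ⟨x0, hx0⟩ : ∃ x0 : ℤ, x0 = (l : ℤ) * i := ⟨_, rfl⟩
  rw [← hx0] at hi1 hi2
  have hEq : hbE Dir.lf B x0 ρ = RE (B - ρ) B (x0 - ρ) (x0 + ρ) := rfl
  have hrimdef : ∀ w : Vtx, w ∈ rimE Dir.lf B x0 ρ ↔ (inR (B - ρ) B (x0 - ρ) (x0 + ρ) w ∧
      (w.1 = B - ρ ∨ w.2 = x0 - ρ ∨ w.2 = x0 + ρ)) := fun w => Iff.rfl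
  have hsegdef : ∀ v : Vtx, v ∈ segD Dir.lf B x0 (8 * l) ↔ (v.1 = B ∧ x0 - (8 * l : ℕ) ≤ v.2 ∧ v.2 ≤ x0 + (8 * l : ℕ)) := fun v => Iff.rfl
  have key : H4 Dir.lf B x0 (8 * l) ρ (CF ∩ S) ∨ Reach (C ∩ {e | inR (B - ρ) B (x0 - ρ) (x0 + ρ) (src e) ∧
      inR (B - ρ) B (x0 - ρ) (x0 + ρ) (tgt e)}) u u' := by
    refine hb_case (P := P) (r := r) (CF := CF ∩ S) h.c1 (fun g hg hg2 => h.c2 g hg.1 hg.2 hg2)
      (fun g hg => ⟨h.c3 hg, h.c4 hg⟩) hEq ?_ ?_ ?_ ?_ ?_ ?_ ?_ ?_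
    · intro w w2 hw hwr g hg hgw
      rw [hrimdef] at hwr
      have hwr' : ¬ (w.1 = B - ρ ∨ w.2 = x0 - ρ ∨ w.2 = x0 + ρ) := fun hh => hwr ⟨hw, hh⟩
      obtain ⟨q, hq, hq1, hq2⟩ := EP_loc hg hgw
      have hnb := FD_nb_of hgw
      unfold inR at hw ⊢
      unfold FD_nb at hnb
      unfold inSq at hq1 hq2
      by_cases h5 : B < w2.1
      · exfalso
        have k1 : q.2 = z.2 := tang q w.2 (by omega) (by omega) (by omega) (by omega)
        have k2 : q.1 = z.1 + 1 := by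
          have hh : z.1 = q.1 - 1 := by
            refine sq_below hr ?_ ?_
            · rw [← hE0]; omega
            · rw [← hE0]; omega
          omega
        exact hz' (by rw [← k2, ← k1]; exact hq)
      · omega
    · intro g hg
      obtain ⟨g1, g2⟩ := FD_of_mem_RE hg
      unfold inR at g1 g2
      refine EP_of hz ?_ ?_ <;> · unfold inSq
                                  rw [← hA, ← hE0]
                                  omega
    · unfold inR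
      omega
    · unfold inR
      omega
    · rw [hsegdef]
      push_cast
      omega
    · rw [hsegdef]
      push_cast
      omega
    · intro R hR hR2
      refine h.ex R hR fun v hv => ⟨?_, hdi.2 v ?_⟩
      · have := hR2 v hv
        unfold inR at this
        rw [abs_le, abs_le]
        omega
      · have := hR2 v hv
        unfold inR at this ⊢
        omega
    · intro R hR hR2
      refine h.ex' R hR fun v hv => ⟨?_, hdi.2 v ?_⟩
      · have := hR2 v hv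
        unfold inR at this
        rw [abs_le, abs_le]
        omega
      · have := hR2 v hv
        unfold inR at this ⊢
        omega
  have hball : ∀ g ∈ RE (B - ρ) B (x0 - ρ) (x0 + ρ), g ∈ S := by
    intro g hg
    obtain ⟨g1, g2⟩ := FD_of_mem_RE hg
    refine hdi.1 g ?_ ?_ <;> (unfold inR at g1 g2 ⊢; omega)
  rcases key with hres | hres
  · left
    refine h.bh Dir.lf x0 i (z.1 + 1) z.2 (Or.inr rfl) (hA ▸ a1) (hA ▸ a2) hi1 hi2 hx0
      (by rw [a3, mul_add, mul_one]) ?_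
    rw [a3']
    exact H4_S (fun g hg => hball g (hEq ▸ hg)) hres
  · right
    refine ⟨fun v => inR (B - ρ) B (x0 - ρ) (x0 + ρ) v, ?_, ?_, hres⟩
    · intro v hv
      unfold inR at hv
      rw [abs_le, abs_le]
      omega
    · unfold inR
      omega

theorem planar (h : Ctx r ρ l Bd S AA P C CF u u') {z : ℤ × ℤ} (hz : z ∈ P) (hzu : inSq r z u)
    (hdi : Ball S AA ρ l u) :
    Con r Bd C u u' := by
  by_cases hc : ∃ ζ : ℤ × ℤ, |u.1 - r * ζ.1| ≤ 3 * ρ ∧ |u.2 - r * ζ.2| ≤ 3 * ρ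
  · obtain ⟨ζ, a1, a2⟩ := hc
    exact corner h a1 a2
  · have c0 : ∀ ζ : ℤ × ℤ, ¬ (|u.1 - r * ζ.1| ≤ 3 * ρ ∧ |u.2 - r * ζ.2| ≤ 3 * ρ) :=
      fun ζ hh => hc ⟨ζ, hh⟩
    have d1 := c0 (z.1, z.2)
    have d2 := c0 (z.1 + 1, z.2)
    have d3 := c0 (z.1, z.2 + 1)
    have d4 := c0 (z.1 + 1, z.2 + 1)
    have b1 := h.hl
    have b2 := h.h1
    have b3 := h.h2
    have e1 : (r : ℤ) * (z.1 + 1) = r * z.1 + r := by ring
    have e2 : (r : ℤ) * (z.2 + 1) = r * z.2 + r := by ring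
    have e3 : (r : ℤ) * (z.1 - 1) = r * z.1 - r := by ring
    have e4 : (r : ℤ) * (z.2 - 1) = r * z.2 - r := by ring
    simp only [e1, e2, abs_le] at d1 d2 d3 d4
    obtain ⟨g, hg, hgu⟩ := h.un
    obtain ⟨w, hw⟩ : ∃ w, (src g = u ∧ tgt g = w) ∨ (src g = w ∧ tgt g = u) := by
      rcases hgu with hgu | hgu
      · exact ⟨_, Or.inl ⟨hgu, rfl⟩⟩
      · exact ⟨_, Or.inr ⟨rfl, hgu⟩⟩
    have hnot : ∀ q ∈ P, inSq r q u → ¬ inSq r q w := by
      intro q hq k1 k2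
      apply hg
      rcases hw with ⟨k3, k4⟩ | ⟨k3, k4⟩
      · exact EP_of hq (k3 ▸ k1) (k4 ▸ k2)
      · exact EP_of hq (k3 ▸ k2) (k4 ▸ k1)
    have hz1 := hnot z hz hzu
    have hnb := FD_nb_of hw
    have hR := hnot (z.1 + 1, z.2)
    have hL := hnot (z.1 - 1, z.2)
    have hU := hnot (z.1, z.2 + 1)
    have hD := hnot (z.1, z.2 - 1)
    unfold inSq at hzu hz1 hR hL hU hD
    simp only [e1, e2, e3, e4] at hzu hz1 hR hL hU hD
    rcases hnb with ⟨k1, k2 | k2⟩ | ⟨k1, k2 | k2⟩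
    · have hx : u.1 = r * z.1 + r := by omega
      refine dir_lf h hdi hz (fun hq => ?_) ?_ ?_ hx
      · exact hR hq (by omega) (by omega)
      · omega
      · omega
    · have hx : u.1 = r * z.1 := by omega
      refine dir_rt h hdi hz (fun hq => ?_) ?_ ?_ hx
      · exact hL hq (by omega) (by omega)
      · omega
      · omega
    · have hx : u.2 = r * z.2 + r := by omega
      refine dir_dn h hdi hz (fun hq => ?_) ?_ ?_ hx
      · exact hU hq (by omega) (by omega)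
      · omega
      · omega
    · have hx : u.2 = r * z.2 := by omega
      refine dir_up h hdi hz (fun hq => ?_) ?_ ?_ hx
      · exact hD hq (by omega) (by omega)
      · omega
      · omega

end

end PL

end Pool.Agent.W782.KI
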